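import Mathlib
import Pool.Agent.H525.EX.Stm

set_option autoImplicit false

/-! Solution of the two recurrences for `ε = -1`. -/

namespace Pool.Agent.H580.EX

open Pool.Agent.H525.EX

/-- values of the solution of the one-step recurrence -/
theorem gval (g : ℤ → ℝ) (a : ℕ) (ha : 1 ≤ a) (Q : ℝ) (h0 : ∀ n, n < 0 → g n = 0)
    (hg : ∀ n : ℤ, g n - Q * g (n - a) = (if n = 0 then 1 else 0) + (if n = a then Q else 0))
    (n : ℕ) : g n = if a ∣ n then (if n = 0 then 1 else 2 * Q ^ (n / a)) else 0 := by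
  induction n using Nat.strong_induction_on with
  | _ n ih =>
    have h1 := hg n
    rcases Nat.eq_zero_or_pos n with rfl | hn
    · have h2 : g ((0 : ℕ) - (a : ℤ)) = 0 := h0 _ (by push_cast; omega)
      have h3 : ¬ ((0 : ℕ) : ℤ) = (a : ℤ) := by push_cast; omega
      rw [h2, if_neg h3] at h1
      simp only [Nat.cast_zero, if_true, mul_zero, sub_zero, add_zero] at h1
      simp [h1]
    · have hn0 : ¬ (n : ℤ) = 0 := by omega
      rw [if_neg hn0] at h1
      rcases lt_trichotomy n a with hlt | heq | hgt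
      · have h2 : g ((n : ℤ) - a) = 0 := h0 _ (by omega)
        have h3 : ¬ (n : ℤ) = (a : ℤ) := by omega
        rw [h2, if_neg h3] at h1
        have h4 : ¬ a ∣ n := fun h => absurd (Nat.le_of_dvd hn h) (by omega)
        rw [if_neg h4]
        linarith
      · subst heq
        have h2 := ih 0 hn
        simp only [dvd_zero, if_true] at h2
        rw [sub_self, if_pos rfl] at h1
        have h3 : g (0 : ℤ) = 1 := by
          rw [← h2]
          norm_num
        rw [h3] at h1
        rw [if_pos dvd_rfl, if_neg (by omega), Nat.div_self hn, pow_one]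
        linarith
      · have h3 : ¬ (n : ℤ) = (a : ℤ) := by omega
        rw [if_neg h3] at h1
        have h2 := ih (n - a) (by omega)
        rw [Nat.cast_sub hgt.le] at h2
        have h4 : a ∣ n - a ↔ a ∣ n := by
          constructor
          · intro h
            have := Nat.dvd_add h (dvd_refl a)
            rwa [Nat.sub_add_cancel hgt.le] at this
          · intro h
            exact Nat.dvd_sub h (dvd_refl a)
        by_cases h5 : a ∣ n
        · rw [if_pos h5, if_neg (by omega)]
          rw [if_pos (h4.2 h5), if_neg (by omega)] at h2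
          have h6 : n / a = (n - a) / a + 1 := by
            rw [Nat.div_eq_sub_div (by omega) hgt.le]
          rw [h6, pow_succ]
          have h7 : g n = Q * g ((n : ℤ) - a) := by linarith
          rw [h7, h2]
          ring
        · rw [if_neg h5]
          rw [if_neg (fun h => h5 (h4.1 h))] at h2
          rw [h2] at h1
          linarith

/-- the coefficients of the iteration -/
noncomputable def cf (P : ℝ) : ℕ → ℝ
  | 0 => 1
  | j + 1 => cf P j * ((-1) ^ j * P)

theorem cf_eq (P : ℝ) (j : ℕ) : cf P j = (-1) ^ j * (-1) ^ (j * (j + 1) / 2) * P ^ j := by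
  induction j with
  | zero => simp [cf]
  | succ j ih =>
    have h1 : (j + 1) * (j + 1 + 1) / 2 = j * (j + 1) / 2 + (j + 1) := by
      have : (j + 1) * (j + 1 + 1) = j * (j + 1) + (j + 1) * 2 := by ring
      rw [this, Nat.add_mul_div_right _ _ (by norm_num)]
    have h2 : ((-1 : ℝ)) ^ j * (-1) ^ j = 1 := by
      rw [← mul_pow]
      norm_num
    rw [cf, ih, h1, pow_add, pow_succ, pow_succ]
    linear_combination (-(((-1 : ℝ)) ^ (j * (j + 1) / 2) * P ^ j * P * ((-1) ^ j * (-1) ^ j))
      + (((-1 : ℝ)) ^ (j * (j + 1) / 2) * P ^ j * P * ((-1) ^ j * (-1) ^ j))) * h2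

theorem zero_of (P : ℝ) (f : ℕ → ℤ → ℝ) (h0 : ∀ s n, n < 0 → f s n = 0)
    (hf : ∀ (s : ℕ) (n : ℤ), f s n - P ^ 2 * f s (n - (4 * s + 2)) =
      (-1) ^ s * P * (f (s + 1) (n - (2 * s + 2)) - P ^ 2 * f (s + 1) (n - (6 * s + 4)))) :
    ∀ s n, f s n = 0 := by
  have hg : ∀ (s : ℕ) (n : ℕ), f s n - (-1) ^ s * P * f (s + 1) (n - (2 * s + 2)) = 0 := by
    intro s n
    induction n using Nat.strong_induction_on with
    | _ n ih =>
      have h1 := hf s n
      have e : ((n : ℤ) - (6 * s + 4)) = (((n : ℤ) - (4 * s + 2)) - (2 * s + 2)) := by ring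
      rw [e] at h1
      rcases lt_or_ge n (4 * s + 2) with hlt | hge
      · rw [h0 s ((n : ℤ) - (4 * s + 2)) (by omega),
          h0 (s + 1) (((n : ℤ) - (4 * s + 2)) - (2 * s + 2)) (by omega)] at h1
        linarith
      · have h2 := ih (n - (4 * s + 2)) (by omega)
        rw [Nat.cast_sub hge] at h2
        push_cast at h2
        linear_combination h1 + P ^ 2 * h2
  have hf2 : ∀ (n : ℕ) (s : ℕ), f s n = 0 := by
    intro n
    induction n using Nat.strong_induction_on with
    | _ n ih =>
      intro s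
      have h1 := hg s n
      rcases lt_or_ge n (2 * s + 2) with hlt | hge
      · rw [h0 (s + 1) ((n : ℤ) - (2 * s + 2)) (by omega)] at h1
        linarith
      · have h2 := ih (n - (2 * s + 2)) (by omega) (s + 1)
        rw [Nat.cast_sub hge] at h2
        push_cast at h2
        rw [h2] at h1
        linarith
  intro s n
  rcases lt_or_ge n 0 with h | h
  · exact h0 s n h
  · obtain ⟨m, rfl⟩ := Int.eq_ofNat_of_zero_le h
    exact hf2 m s

theorem main (P : ℝ) (D : ℕ → ℤ → ℝ) (h0 : ∀ s n, n < 0 → D s n = 0)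
    (hD : ∀ (s : ℕ) (n : ℤ), D s n - P ^ 2 * D s (n - (4 * s + 2)) =
      (if n = 0 then 1 else 0) + (if n = 4 * s + 2 then P ^ 2 else 0) +
      (-1) ^ s * P * (D (s + 1) (n - (2 * s + 2)) - P ^ 2 * D (s + 1) (n - (6 * s + 4))))
    (n : ℕ) : D 0 n = Cc (-1) P n := by
  obtain ⟨g, hg⟩ : ∃ g : ℕ → ℤ → ℝ, g = fun (s : ℕ) (n : ℤ) =>
    D s n - (-1) ^ s * P * D (s + 1) (n - (2 * s + 2)) := ⟨_, rfl⟩
  have hg0 : ∀ s n, n < 0 → g s n = 0 := by
    intro s n hn
    rw [hg]
    simp only
    rw [h0 s n hn, h0 (s + 1) _ (by omega)]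
    ring
  have hgr : ∀ (s : ℕ) (n : ℤ), g s n - P ^ 2 * g s (n - ((4 * s + 2 : ℕ) : ℤ)) =
      (if n = 0 then 1 else 0) + (if n = ((4 * s + 2 : ℕ) : ℤ) then P ^ 2 else 0) := by
    intro s n
    have h1 := hD s n
    have e : (n - (6 * s + 4)) = ((n - (4 * s + 2)) - (2 * s + 2)) := by ring
    rw [e] at h1
    rw [hg]
    push_cast
    linear_combination h1
  have hgv := fun s : ℕ => gval (g s) (4 * s + 2) (by omega) (P ^ 2) (hg0 s) (hgr s)
  -- iteration
  have hit : ∀ J : ℕ, D 0 n = ∑ j ∈ Finset.range J, cf P j * g j ((n : ℤ) - j * (j + 1)) +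
      cf P J * D J ((n : ℤ) - J * (J + 1)) := by
    intro J
    induction J with
    | zero => simp [cf]
    | succ J ih =>
      rw [Finset.sum_range_succ, ih]
      have e : ((n : ℤ) - ((J + 1 : ℕ) : ℤ) * (((J + 1 : ℕ) : ℤ) + 1)) =
          ((n : ℤ) - J * (J + 1)) - (2 * J + 2) := by
        push_cast
        ring
      rw [e, cf, hg]
      simp only
      ring
  rw [hit (n + 1), h0 (n + 1) _ (by push_cast; nlinarith), mul_zero, add_zero]
  unfold Cc
  refine Finset.sum_congr rfl fun j _ => ?_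
  rcases lt_or_ge n (j * (j + 1)) with hlt | hge
  · rw [hg0 j _ (by
      have : (n : ℤ) < j * (j + 1) := by exact_mod_cast hlt
      linarith), mul_zero, if_neg (fun h => absurd h.1 (by omega))]
  · obtain ⟨N, hN⟩ : ∃ N, N = n - j * (j + 1) := ⟨_, rfl⟩
    have hNz : ((n : ℤ) - j * (j + 1)) = (N : ℤ) := by
      rw [hN, Nat.cast_sub hge]
      push_cast
      ring
    have hn0 : n = j * (j + 1) ↔ N = 0 := by omega
    rw [hNz, hgv j N, ← hN, cf_eq]
    by_cases hd : (2 * j + 1) ∣ N
    · rw [if_pos (show j * (j + 1) ≤ n ∧ (2 * j + 1) ∣ N from ⟨hge, hd⟩)]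
      obtain ⟨m, rfl⟩ := hd
      have hdiv : (2 * j + 1) * m / (2 * j + 1) = m := Nat.mul_div_cancel_left m (by omega)
      rw [hdiv]
      rcases Nat.eq_zero_or_pos m with rfl | hm
      · rw [mul_zero] at hn0 ⊢
        rw [if_pos (dvd_zero _), if_pos rfl, if_pos (hn0.2 rfl)]
        simp
      · have hne : ¬ (2 * j + 1) * m = 0 := by positivity
        rw [if_neg hne, if_neg (fun h => hne (hn0.1 h))]
        rcases Nat.even_or_odd m with ⟨r, hr⟩ | ⟨r, hr⟩
        · have h1 : (4 * j + 2) ∣ (2 * j + 1) * m := ⟨r, by rw [hr]; ring⟩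
          have h2 : (2 * j + 1) * m / (4 * j + 2) = r := by
            have : (2 * j + 1) * m = (4 * j + 2) * r := by rw [hr]; ring
            rw [this, Nat.mul_div_cancel_left _ (by omega)]
          have h3 : ((-1 : ℝ)) ^ m = 1 := by
            rw [hr, ← two_mul, pow_mul]
            norm_num
          have h4 : P ^ m = (P ^ 2) ^ r := by
            rw [hr, ← two_mul, pow_mul]
          rw [if_pos h1, h2, h3, pow_add, h4]
          ring
        · have h1 : ¬ (4 * j + 2) ∣ (2 * j + 1) * m := by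
            intro h
            have h5 : (4 * j + 2) = (2 * j + 1) * 2 := by ring
            rw [h5] at h
            have h6 := Nat.dvd_of_mul_dvd_mul_left (by omega) h
            omega
          have h3 : ((-1 : ℝ)) ^ m = -1 := by
            rw [hr, pow_succ, pow_mul]
            norm_num
          rw [if_neg h1, h3]
          ring
    · have h1 : ¬ (4 * j + 2) ∣ N := fun h => hd (dvd_trans ⟨2, by ring⟩ h)
      rw [if_neg (show ¬ (j * (j + 1) ≤ n ∧ (2 * j + 1) ∣ N) from fun h => hd h.2), if_neg h1,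
        mul_zero]

theorem t_r2 : Pool.Agent.H525.EX.S_r2 := ⟨main, zero_of⟩

end Pool.Agent.H580.EX
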